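import Mathlib

/-!
# MP_876231_nt: the local condition without exceptions

If `k, 2k+1, ..., nk+n-1` are all prime then the product of the primes up to `n` divides `k + 1`,
except for `(n, k) = (2, 2), (3, 3), (5, 5)`.
-/

set_option autoImplicit false

namespace Pool.Agent.Results.MP_876231_nt.LocalConditionExact

/-- a prime `p ≤ n` not dividing `k + 1` equals `n` and `k` -/
theorem eq_of_not_dvd {n k p : ℕ} (h : ∀ i, 1 ≤ i → i ≤ n → (i * k + (i - 1)).Prime)
    (hp : p.Prime) (hpn : p ≤ n) (hd : ¬ p ∣ k + 1) : k = n ∧ p = n := by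
  have hk : k.Prime := by simpa using h 1 le_rfl (by have := hp.two_le; omega)
  have hk2 := hk.two_le
  haveI : Fact p.Prime := ⟨hp⟩
  -- `k ≥ n`
  have hkn : n ≤ k := by
    by_contra hlt
    have h1 := h (k + 1) (by omega) (by omega)
    have h2 : (k + 1) * k + (k + 1 - 1) = k * (k + 2) := by
      simp only [Nat.add_sub_cancel]; ring
    rw [h2] at h1
    exact Nat.not_prime_mul (by omega) (by omega) h1
  -- the inverse of `k + 1` modulo `p`
  have hN : ((k + 1 : ℕ) : ZMod p) ≠ 0 := by
    rw [Ne, ZMod.natCast_eq_zero_iff]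
    exact hd
  set i : ℕ := ((((k + 1 : ℕ) : ZMod p))⁻¹).val with hi
  have hi1 : ((i : ℕ) : ZMod p) * ((k + 1 : ℕ) : ZMod p) = 1 := by
    rw [hi, ZMod.natCast_zmod_val]
    exact inv_mul_cancel₀ hN
  have hip : i < p := ZMod.val_lt _
  have hi0 : 1 ≤ i := by
    rcases Nat.eq_zero_or_pos i with h0 | h0
    · rw [h0] at hi1
      simp at hi1
    · exact h0
  have hpr := h i hi0 (by omega)
  have hdv : p ∣ i * k + (i - 1) := by
    rw [← ZMod.natCast_eq_zero_iff]
    have h3 : i * k + (i - 1) + 1 = i * (k + 1) := by
      have : i - 1 + 1 = i := by omega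
      calc i * k + (i - 1) + 1 = i * k + (i - 1 + 1) := by ring
        _ = i * (k + 1) := by rw [this]; ring
    have h4 : ((i * k + (i - 1) + 1 : ℕ) : ZMod p) = 1 := by
      rw [h3]; push_cast at hi1 ⊢; exact hi1
    push_cast at h4
    push_cast
    linear_combination h4
  have heq : p = i * k + (i - 1) := (Nat.prime_dvd_prime_iff_eq hp hpr).1 hdv
  have hkp : k ≤ p := by
    rw [heq]
    nlinarith
  omega

/-- If `k, 2 k + 1, ..., n k + n - 1` are all prime, then the product of the primes up to `n`
divides `k + 1`, or `(n, k)` is one of `(2, 2), (3, 3), (5, 5)`; in these three cases the numbers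
are all prime and the product does not divide `k + 1`. -/
theorem result :
    (∀ n k : ℕ, (∀ i, 1 ≤ i → i ≤ n → (i * k + (i - 1)).Prime) →
      (¬ (∏ p ∈ (Finset.Icc 1 n).filter Nat.Prime, p) ∣ k + 1 ↔
        n = k ∧ (k = 2 ∨ k = 3 ∨ k = 5))) ∧
    (∀ k : ℕ, (k = 2 ∨ k = 3 ∨ k = 5) → ∀ i, 1 ≤ i → i ≤ k → (i * k + (i - 1)).Prime) := by
  constructor
  · intro n k h
    constructor
    · intro hnd
      have hex : ∃ p, p.Prime ∧ p ≤ n ∧ ¬ p ∣ k + 1 := by
        by_contra hno
        push Not at hno
        apply hnd
        apply Finset.prod_primes_dvd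
        · intro p hp
          exact (Finset.mem_filter.1 hp).2.prime
        · intro p hp
          rw [Finset.mem_filter, Finset.mem_Icc] at hp
          exact hno p hp.2 hp.1.2
      obtain ⟨p, hp, hpn, hd⟩ := hex
      obtain ⟨rfl, rfl⟩ := eq_of_not_dvd h hp hpn hd
      refine ⟨rfl, ?_⟩
      have hall : ∀ q, q.Prime → q < p → q ∣ p + 1 := by
        intro q hq hqp
        by_contra hqd
        have := (eq_of_not_dvd h hq hqp.le hqd).2
        omega
      by_contra hne
      push Not at hne
      have hp2 := hp.two_le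
      have h7 : 7 ≤ p := by
        by_contra hlt
        have : p = 4 ∨ p = 6 := by omega
        rcases this with rfl | rfl
        · exact absurd hp (by norm_num)
        · exact absurd hp (by norm_num)
      have d2 := hall 2 Nat.prime_two (by omega)
      have d3 := hall 3 Nat.prime_three (by omega)
      have d5 := hall 5 Nat.prime_five (by omega)
      have h29 : 29 ≤ p := by omega
      obtain ⟨q, hq, hq1, hq2⟩ := Nat.exists_prime_lt_and_le_two_mul ((p - 1) / 2) (by omega)
      have dq := hall q hq (by omega)
      obtain ⟨c, hc⟩ := dq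
      have hq15 : 15 ≤ q := by omega
      have hc2 : c ≤ 2 := by
        by_contra hc3
        have : q * 3 ≤ q * c := Nat.mul_le_mul_left _ (by omega)
        omega
      have hc0 : c ≠ 0 := by
        rintro rfl
        omega
      have h3q : 3 ∣ q := by
        have h3c : 3 ∣ q * c := hc ▸ d3
        rcases (Nat.Prime.dvd_mul Nat.prime_three).1 h3c with h | h
        · exact h
        · have := Nat.le_of_dvd (by omega) h
          omega
      have := (Nat.prime_dvd_prime_iff_eq Nat.prime_three hq).1 h3q
      omega
    · rintro ⟨rfl, rfl | rfl | rfl⟩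
      · decide
      · decide
      · decide
  · rintro k (rfl | rfl | rfl) i h1 h2
    · interval_cases i <;> norm_num
    · interval_cases i <;> norm_num
    · interval_cases i <;> norm_num

end Pool.Agent.Results.MP_876231_nt.LocalConditionExact
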